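import Pool.Agent.X191.BA.Q2

/-!
# MP_ba8092_nt: both sets have Hausdorff dimension 1

Let `ω` be a random sequence of independent uniformly distributed digits. Almost surely `ω` is normal of
all orders (second moments). Change `ω` without touching the small digits (Q1: the large digits are
moved away from the top fifth; Q2: the zeros which do not lie in a window of `l` small digits are
replaced by `⌊√q_n⌋`). Normality (Q2: of the orders `≥ l`) is kept, uniform distribution (Q2: normality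
of the orders `< l`) is destroyed, and each digit of the new sequence leaves at most two possibilities
for the old digit. As `q_n → ∞`, the law of the new number has mass at most `d^s` on intervals of small
length `d`, for each `s < 1`.
-/

set_option autoImplicit false

open Filter Topology Finset

namespace Pool.Agent.Results.MP_ba8092_nt.FullDimension

/-- `P q n = q_1 ⋯ q_n` -/
def P (q : ℕ → ℕ) (n : ℕ) : ℕ := ∏ j ∈ Icc 1 n, q j

/-- The digit `E_n` (`n ≥ 1`) of the `Q`-Cantor series expansion of `x`: the residue of `⌊q_1 ⋯ q_n x⌋`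
modulo `q_n`. -/
noncomputable def digit (q : ℕ → ℕ) (x : ℝ) (n : ℕ) : ℕ :=
  (⌊(P q n : ℝ) * x⌋ % (q n : ℤ)).toNat

/-- The block `B` of length `k` occurs at position `p` of the sequence `E`. -/
def Occurs (E : ℕ → ℕ) {k : ℕ} (B : Fin k → ℕ) (p : ℕ) : Prop := ∀ i : Fin k, E (p + i) = B i

open Classical in
/-- The number of positions `p` with `1 ≤ p ≤ n` at which `B` occurs in `E`; `N_n(B, x)` is
`count (digit q x) B n`. -/
noncomputable def count (E : ℕ → ℕ) {k : ℕ} (B : Fin k → ℕ) (n : ℕ) : ℕ :=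
  ((Icc 1 n).filter fun p => Occurs E B p).card

/-- `Q_n^{(k)}`, the sum of `1 / (q_p q_{p+1} ⋯ q_{p+k-1})` over `1 ≤ p ≤ n` -/
noncomputable def weight (q : ℕ → ℕ) (k n : ℕ) : ℝ :=
  ∑ p ∈ Icc 1 n, 1 / ∏ i ∈ range k, (q (p + i) : ℝ)

/-- `𝒩_k(Q)`: the numbers which are `Q`-normal of order `k` -/
def NormalOrder (q : ℕ → ℕ) (k : ℕ) : Set ℝ := {x | ∀ B : Fin k → ℕ,
  Tendsto (fun n => (count (digit q x) B n : ℝ) / weight q k n) atTop (𝓝 1)}

/-- `𝒩(Q)` -/
def Normal (q : ℕ → ℕ) : Set ℝ := ⋂ k ≥ 1, NormalOrder q k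

/-- Uniform distribution modulo one, for a sequence `u` in `[0, 1)`. -/
def UniformlyDistributed (u : ℕ → ℝ) : Prop := ∀ a b : ℝ, 0 ≤ a → a < b → b ≤ 1 →
  Tendsto (fun N : ℕ => (((range N).filter fun n => a ≤ u n ∧ u n < b).card : ℝ) / N) atTop (𝓝 (b - a))

/-- `𝒟𝒩(Q)`: the numbers which are `Q`-distribution normal -/
def DistributionNormal (q : ℕ → ℕ) : Set ℝ :=
  {x | UniformlyDistributed fun n => Int.fract ((P q n : ℝ) * x)}

/-- (1) The numbers `digit q x n` are the digits of the Cantor series expansion of `x`.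
(2) For every basic sequence `q` which is infinite in limit and fully divergent, both dimensions of the
problem are `1`. -/
theorem result :
    (∀ q : ℕ → ℕ, (∀ n, 2 ≤ q n) → ∀ x : ℝ, (∀ n, digit q x n < q n) ∧
      (∃ᶠ n in atTop, digit q x n ≠ q n - 1) ∧
      HasSum (fun n => (digit q x (n + 1) : ℝ) / P q (n + 1)) (x - ⌊x⌋)) ∧
    ∀ q : ℕ → ℕ, (∀ n, 2 ≤ q n) → Tendsto q atTop atTop →
      (∀ k, 1 ≤ k → Tendsto (weight q k) atTop atTop) →
      dimH (Normal q \ DistributionNormal q) = 1 ∧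
      ∀ l, 1 ≤ l → dimH ((⋂ j ≥ l, NormalOrder q j) \ ⋃ j ∈ Set.Ico 1 l, NormalOrder q j) = 1 := by
  refine ⟨fun q hq x => ⟨fun n => Pool.Agent.X191.NS.digit_lt hq x n,
    Pool.Agent.X191.NS.frequently_digit hq x, Pool.Agent.X191.NS.expansion hq x⟩, ?_⟩
  intro q hq2 hq hk
  refine ⟨?_, fun l hl => ?_⟩
  · have h := Pool.Agent.X191.BA.q1 hq2 hq hk
    have e1 : Normal q = {x : ℝ | ∀ k, 1 ≤ k → ∀ B : Fin k → ℕ,
        Tendsto (fun n => (Pool.Agent.X191.BA.num (Pool.Agent.X191.NS.digit q x) B n : ℝ) /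
          Pool.Agent.X191.BA.wt q k n) atTop (𝓝 1)} := by
      ext x
      simp only [Normal, Set.mem_iInter]
      rfl
    rw [e1]
    exact h
  · have h := Pool.Agent.X191.BA.q2 hq2 hq hk l hl
    have e1 : (⋂ j ≥ l, NormalOrder q j) = {x : ℝ | ∀ k, l ≤ k → ∀ B : Fin k → ℕ,
        Tendsto (fun n => (Pool.Agent.X191.BA.num (Pool.Agent.X191.NS.digit q x) B n : ℝ) /
          Pool.Agent.X191.BA.wt q k n) atTop (𝓝 1)} := by
      ext x
      simp only [Set.mem_iInter]
      rfl
    have e2 : (⋃ j ∈ Set.Ico 1 l, NormalOrder q j) = {x : ℝ | ∃ j, 1 ≤ j ∧ j < l ∧ ∀ B : Fin j → ℕ,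
        Tendsto (fun n => (Pool.Agent.X191.BA.num (Pool.Agent.X191.NS.digit q x) B n : ℝ) /
          Pool.Agent.X191.BA.wt q j n) atTop (𝓝 1)} := by
      ext x
      simp only [Set.mem_iUnion, Set.mem_Ico, exists_prop]
      constructor
      · rintro ⟨j, h1, h2⟩
        exact ⟨j, h1.1, h1.2, h2⟩
      · rintro ⟨j, h1, h2, h3⟩
        exact ⟨j, ⟨h1, h2⟩, h3⟩
    rw [e1, e2]
    exact h

end Pool.Agent.Results.MP_ba8092_nt.FullDimension
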